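import Mathlib

set_option autoImplicit false

open MeasureTheory
open scoped ENNReal NNReal

namespace Pool.Agent.Results.MP_7677b2_pr.NoAbsoluteConstant

open scoped Classical in
/-- The local `ℓ^p` energy `Ψ(y) = ∑_{w ∼ v} |y - f w| ^ p`. -/
noncomputable def energy {n : ℕ} (G : SimpleGraph (Fin n)) (p : ℝ) (f : Fin n → ℝ)
    (v : Fin n) (y : ℝ) : ℝ :=
  ∑ w ∈ Finset.univ.filter (fun w => G.Adj v w), |y - f w| ^ p

/-- The minimizer of `Ψ` (for `p > 1` and `v` not isolated it exists and is unique). -/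
noncomputable def minimizer {n : ℕ} (G : SimpleGraph (Fin n)) (p : ℝ) (f : Fin n → ℝ)
    (v : Fin n) : ℝ :=
  Classical.epsilon fun y : ℝ => ∀ z : ℝ, energy G p f v y ≤ energy G p f v z

/-- The profile `f_t` after `t` steps, when `v t` is the vertex updated at step `t + 1`. -/
noncomputable def profile {n : ℕ} (G : SimpleGraph (Fin n)) (p : ℝ) (f₀ : Fin n → ℝ)
    (v : ℕ → Fin n) : ℕ → Fin n → ℝ
  | 0 => f₀
  | t + 1 => Function.update (profile G p f₀ v t) (v t) (minimizer G p (profile G p f₀ v t) (v t))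

/-- The oscillation `max f - min f`. -/
noncomputable def osc {n : ℕ} (f : Fin n → ℝ) : ℝ := (⨆ w, f w) - ⨅ w, f w

/-- The consensus time `τ_p(ε)`, the least `t` with `osc f_t ≤ ε` (`∞` if there is none). -/
noncomputable def consensusTime {n : ℕ} (G : SimpleGraph (Fin n)) (p : ℝ) (f₀ : Fin n → ℝ)
    (ε : ℝ) (v : ℕ → Fin n) : ℝ≥0∞ :=
  ⨅ (t : ℕ) (_ : osc (profile G p f₀ v t) ≤ ε), (t : ℝ≥0∞)

/-- The expectation of `τ_p(ε)` when the updated vertices are i.i.d. uniform on `Fin n`. -/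
noncomputable def expectedTime {n : ℕ} (G : SimpleGraph (Fin n)) (p : ℝ) (f₀ : Fin n → ℝ)
    (ε : ℝ) : ℝ≥0∞ :=
  ∫⁻ v, consensusTime G p f₀ ε v
    ∂(Measure.infinitePi fun _ : ℕ => ProbabilityTheory.uniformOn (Set.univ : Set (Fin n)))

/-! ### Existence of the minimizer -/

lemma energy_continuous {n : ℕ} (G : SimpleGraph (Fin n)) {p : ℝ} (hp : 1 < p)
    (f : Fin n → ℝ) (v : Fin n) : Continuous (energy G p f v) := by
  unfold energy
  refine continuous_finsetSum _ fun w _ => ?_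
  exact ((continuous_id.sub continuous_const).abs).rpow_const fun x => Or.inr (by linarith)

lemma energy_nonneg {n : ℕ} (G : SimpleGraph (Fin n)) (p : ℝ)
    (f : Fin n → ℝ) (v : Fin n) (y : ℝ) : 0 ≤ energy G p f v y :=
  Finset.sum_nonneg fun _ _ => Real.rpow_nonneg (abs_nonneg _) _

lemma exists_minimizer {n : ℕ} (G : SimpleGraph (Fin n)) {p : ℝ} (hp : 1 < p)
    (f : Fin n → ℝ) (v w : Fin n) (hvw : G.Adj v w) :
    ∃ y : ℝ, ∀ z : ℝ, energy G p f v y ≤ energy G p f v z := by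
  classical
  refine (energy_continuous G hp f v).exists_forall_le ?_
  have h1 : Filter.Tendsto (fun y : ℝ => |y - f w| ^ p) (Filter.cocompact ℝ) Filter.atTop := by
    have h2 : Filter.Tendsto (fun y : ℝ => |y - f w|) (Filter.cocompact ℝ) Filter.atTop := by
      have := tendsto_norm_cocompact_atTop (E := ℝ)
      have h3 := Filter.tendsto_atTop_add_const_right (Filter.cocompact ℝ) (-|f w|) this
      refine Filter.tendsto_atTop_mono (fun y => ?_) h3
      have := abs_sub_abs_le_abs_sub y (f w)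
      simp only [Real.norm_eq_abs]
      linarith
    exact (tendsto_rpow_atTop (by linarith : (0:ℝ) < p)).comp h2
  refine Filter.tendsto_atTop_mono (fun y => ?_) h1
  unfold energy
  exact Finset.single_le_sum (f := fun w => |y - f w| ^ p)
    (fun i _ => Real.rpow_nonneg (abs_nonneg _) _) (by simp [hvw])

lemma minimizer_spec {n : ℕ} (G : SimpleGraph (Fin n)) {p : ℝ} (hp : 1 < p)
    (f : Fin n → ℝ) (v w : Fin n) (hvw : G.Adj v w) (z : ℝ) :
    energy G p f v (minimizer G p f v) ≤ energy G p f v z :=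
  Classical.epsilon_spec (exists_minimizer G hp f v w hvw) z

lemma energy_hasDerivAt {n : ℕ} (G : SimpleGraph (Fin n)) {p : ℝ} (hp : 1 < p)
    (f : Fin n → ℝ) (v : Fin n) (y : ℝ) :
    HasDerivAt (energy G p f v)
      (open scoped Classical in
        ∑ w ∈ Finset.univ.filter (fun w => G.Adj v w), p * |y - f w| ^ (p - 2) * (y - f w)) y := by
  classical
  unfold energy
  have := HasDerivAt.fun_sum (u := Finset.univ.filter (fun w => G.Adj v w))
    (A := fun w y => |y - f w| ^ p) (A' := fun w => p * |y - f w| ^ (p - 2) * (y - f w)) (x := y)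
    (fun w _ => by
      have h1 := hasDerivAt_abs_rpow (y - f w) hp
      have h2 : HasDerivAt (fun y : ℝ => y - f w) 1 y := (hasDerivAt_id y).sub_const _
      have h3 := HasDerivAt.comp y h1 h2
      simpa [Function.comp_def] using h3)
  convert this using 3

lemma minimizer_stationary {n : ℕ} (G : SimpleGraph (Fin n)) {p : ℝ} (hp : 1 < p)
    (f : Fin n → ℝ) (v w : Fin n) (hvw : G.Adj v w) :
    (open scoped Classical in
      ∑ u ∈ Finset.univ.filter (fun u => G.Adj v u),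
        |minimizer G p f v - f u| ^ (p - 2) * (minimizer G p f v - f u)) = 0 := by
  classical
  have h1 := energy_hasDerivAt G hp f v (minimizer G p f v)
  have h2 : IsLocalMin (energy G p f v) (minimizer G p f v) :=
    Filter.Eventually.of_forall fun z => minimizer_spec G hp f v w hvw z
  have h3 := h2.hasDerivAt_eq_zero h1
  have h4 : p * ∑ u ∈ Finset.univ.filter (fun u => G.Adj v u),
        |minimizer G p f v - f u| ^ (p - 2) * (minimizer G p f v - f u) = 0 := by
    rw [← h3, Finset.mul_sum]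
    refine Finset.sum_congr ?_ fun u _ => by ring
    ext; simp
  have h5 : p ≠ 0 := by linarith
  convert (mul_eq_zero.mp h4).resolve_left h5 using 2


/-! ### The probabilistic upper bound -/

lemma profile_congr {n : ℕ} (G : SimpleGraph (Fin n)) (p : ℝ) (f₀ : Fin n → ℝ)
    (v w : ℕ → Fin n) (t : ℕ) (h : ∀ i < t, v i = w i) :
    profile G p f₀ v t = profile G p f₀ w t := by
  induction t with
  | zero => rfl
  | succ t ih =>
    have := ih fun i hi => h i (by omega)
    simp only [profile, this, h t (by omega)]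

lemma profile_add {n : ℕ} (G : SimpleGraph (Fin n)) (p : ℝ) (f₀ : Fin n → ℝ)
    (v : ℕ → Fin n) (s t : ℕ) :
    profile G p f₀ v (s + t) = profile G p (profile G p f₀ v s) (fun i => v (s + i)) t := by
  induction t with
  | zero => rfl
  | succ t ih => rw [← add_assoc]; simp only [profile, ih]

lemma measure_blocks {n : ℕ} [NeZero n] (L : ℕ) (w : ℕ → Fin n) (S : Finset ℕ) :
    (Measure.infinitePi fun _ : ℕ => ProbabilityTheory.uniformOn (Set.univ : Set (Fin n)))
      (⋂ j ∈ S, {v : ℕ → Fin n | ∀ i < L, v (j * L + i) = w i}) = ((n : ℝ≥0∞)⁻¹ ^ L) ^ S.card := by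
  classical
  set T : Finset ℕ := (S ×ˢ Finset.range L).image fun q => q.1 * L + q.2 with hT
  have hdiv : ∀ j i : ℕ, i < L → (j * L + i) / L = j ∧ (j * L + i) % L = i := by
    intro j i hi
    have hL : 0 < L := by omega
    constructor
    · rw [mul_comm, Nat.mul_add_div hL, Nat.div_eq_of_lt hi, add_zero]
    · rw [mul_comm, Nat.mul_add_mod, Nat.mod_eq_of_lt hi]
  have h1 : (⋂ j ∈ S, {v : ℕ → Fin n | ∀ i < L, v (j * L + i) = w i})
      = Set.pi (T : Set ℕ) fun m => {w (m % L)} := by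
    ext v
    simp only [Set.mem_iInter, Set.mem_ofPred_eq, Set.mem_pi, hT, Finset.coe_image, Set.mem_image,
      Finset.mem_coe, Finset.mem_product, Finset.mem_range, Set.mem_singleton_iff, Prod.exists,
      forall_exists_index, and_imp]
    constructor
    · rintro h m j i hj hi rfl
      rw [(hdiv j i hi).2]
      exact h j hj i hi
    · intro h j hj i hi
      have := h _ j i hj hi rfl
      rwa [(hdiv j i hi).2] at this
  have hcard : T.card = S.card * L := by
    rw [hT, Finset.card_image_of_injOn, Finset.card_product, Finset.card_range]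
    rintro ⟨j, i⟩ hi ⟨j', i'⟩ hi' h
    simp only [Finset.coe_product, Finset.coe_range, Set.mem_prod, Finset.mem_coe,
      Set.mem_Iio] at hi hi'
    simp only at h
    have h2 := hdiv j i hi.2
    have h3 := hdiv j' i' hi'.2
    rw [h] at h2
    rw [h3.1, h3.2] at h2
    rw [h2.1, h2.2]
  have h5 := Measure.infinitePi_pi
    (μ := fun _ : ℕ => ProbabilityTheory.uniformOn (Set.univ : Set (Fin n)))
    (s := T) (t := fun m => {w (m % L)}) (by intro i _; exact MeasurableSet.singleton _)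
  rw [h1, h5]
  have : ∀ m ∈ T, (ProbabilityTheory.uniformOn (Set.univ : Set (Fin n))) {w (m % L)}
      = (n : ℝ≥0∞)⁻¹ := by
    intro m _
    rw [ProbabilityTheory.uniformOn_univ]
    simp
  rw [Finset.prod_congr rfl this, Finset.prod_const, hcard, ← pow_mul, mul_comm]

lemma measure_no_block {n : ℕ} [NeZero n] (L : ℕ) (w : ℕ → Fin n) (k : ℕ) :
    (Measure.infinitePi fun _ : ℕ => ProbabilityTheory.uniformOn (Set.univ : Set (Fin n)))
      (⋂ j ∈ Finset.range k, {v : ℕ → Fin n | ∀ i < L, v (j * L + i) = w i}ᶜ)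
      = (1 - (n : ℝ≥0∞)⁻¹ ^ L) ^ k := by
  set μ := Measure.infinitePi fun _ : ℕ => ProbabilityTheory.uniformOn (Set.univ : Set (Fin n))
    with hμ
  set E : ℕ → Set (ℕ → Fin n) := fun j => {v : ℕ → Fin n | ∀ i < L, v (j * L + i) = w i} with hE
  have hm : ∀ j, MeasurableSet (E j) := by
    intro j
    have : E j = ⋂ i ∈ Set.Iio L, {v : ℕ → Fin n | v (j * L + i) = w i} := by
      ext v; simp [hE]
    rw [this]
    refine MeasurableSet.biInter (Set.to_countable _) fun i _ => ?_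
    exact (measurable_pi_apply (j * L + i) : Measurable fun v : ℕ → Fin n => v (j * L + i))
      (MeasurableSet.singleton (w i))
  have hone : ∀ j, μ (E j) = (n : ℝ≥0∞)⁻¹ ^ L := by
    intro j
    have := measure_blocks L w {j}
    simpa [hE, hμ] using this
  have hind : ProbabilityTheory.iIndepSet E μ := by
    rw [ProbabilityTheory.iIndepSet_iff_meas_biInter hm]
    intro S
    rw [Finset.prod_congr rfl fun j _ => hone j, Finset.prod_const]
    exact measure_blocks L w S
  have h2 := (ProbabilityTheory.iIndepSet_iff_iIndep E μ).1 hind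
  have h3 := h2.meas_biInter (S := Finset.range k) (s := fun j => (E j)ᶜ) (by
    intro j _
    exact (MeasurableSpace.measurableSet_generateFrom (Set.mem_singleton _)).compl)
  rw [h3]
  have h4 : ∀ j ∈ Finset.range k, μ (E j)ᶜ = 1 - (n : ℝ≥0∞)⁻¹ ^ L := by
    intro j _
    rw [prob_compl_eq_one_sub (hm j), hone j]
  rw [Finset.prod_congr rfl h4, Finset.prod_const, Finset.card_range]

/-- If some word of length `L` brings every profile with values in `[0,1]` to oscillation at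
most `ε`, then the expected consensus time is at most `L * n ^ L`. -/
lemma expectedTime_le {n : ℕ} [NeZero n] (G : SimpleGraph (Fin n)) (p : ℝ) (ε : ℝ)
    (L : ℕ) (hL : 0 < L) (w : ℕ → Fin n)
    (hrange : ∀ f : Fin n → ℝ, (∀ u, f u ∈ Set.Icc (0:ℝ) 1) → ∀ (v : ℕ → Fin n) (t : ℕ) (u : Fin n),
      profile G p f v t u ∈ Set.Icc (0:ℝ) 1)
    (hw : ∀ f : Fin n → ℝ, (∀ u, f u ∈ Set.Icc (0:ℝ) 1) → osc (profile G p f w L) ≤ ε)
    (f₀ : Fin n → ℝ) (hf₀ : ∀ u, f₀ u ∈ Set.Icc (0:ℝ) 1) :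
    expectedTime G p f₀ ε ≤ L * n ^ L := by
  classical
  set μ := Measure.infinitePi fun _ : ℕ => ProbabilityTheory.uniformOn (Set.univ : Set (Fin n))
    with hμ
  set E : ℕ → Set (ℕ → Fin n) := fun j => {v : ℕ → Fin n | ∀ i < L, v (j * L + i) = w i} with hE
  set A : ℕ → Set (ℕ → Fin n) := fun k => ⋂ j ∈ Finset.range k, (E j)ᶜ with hA
  have hmE : ∀ j, MeasurableSet (E j) := by
    intro j
    have : E j = ⋂ i ∈ Set.Iio L, {v : ℕ → Fin n | v (j * L + i) = w i} := by
      ext v; simp [hE]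
    rw [this]
    refine MeasurableSet.biInter (Set.to_countable _) fun i _ => ?_
    exact (measurable_pi_apply (j * L + i) : Measurable fun v : ℕ → Fin n => v (j * L + i))
      (MeasurableSet.singleton (w i))
  have hmA : ∀ k, MeasurableSet (A k) := fun k =>
    MeasurableSet.biInter (Set.to_countable _) fun j _ => (hmE j).compl
  have key : ∀ v : ℕ → Fin n, consensusTime G p f₀ ε v
      ≤ ∑' k : ℕ, (A k).indicator (fun _ => (L : ℝ≥0∞)) v := by
    intro v
    by_cases hex : ∃ j, v ∈ E j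
    · set J := Nat.find hex with hJ
      have hJE : v ∈ E J := Nat.find_spec hex
      have hlt : ∀ j < J, v ∉ E j := fun j hj => Nat.find_min hex hj
      have h1 : osc (profile G p f₀ v (J * L + L)) ≤ ε := by
        rw [profile_add]
        rw [profile_congr G p _ (fun i => v (J * L + i)) w L (fun i hi => hJE i hi)]
        exact hw _ fun u => hrange f₀ hf₀ v _ u
      have h2 : consensusTime G p f₀ ε v ≤ ((J * L + L : ℕ) : ℝ≥0∞) :=
        iInf₂_le (J * L + L) h1
      refine h2.trans ?_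
      have h3 : ∀ k ∈ Finset.range (J + 1), (A k).indicator (fun _ => (L : ℝ≥0∞)) v = L := by
        intro k hk
        rw [Set.indicator_of_mem]
        simp only [hA, Set.mem_iInter, Finset.mem_range, Set.mem_compl_iff]
        intro j hj
        exact hlt j (by rw [Finset.mem_range] at hk; omega)
      calc ((J * L + L : ℕ) : ℝ≥0∞) = ∑ k ∈ Finset.range (J + 1), (L : ℝ≥0∞) := by
            rw [Finset.sum_const, Finset.card_range]; push_cast; ring
        _ = ∑ k ∈ Finset.range (J + 1), (A k).indicator (fun _ => (L : ℝ≥0∞)) v :=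
            (Finset.sum_congr rfl h3).symm
        _ ≤ _ := ENNReal.sum_le_tsum _
    · push Not at hex
      have h3 : ∀ k : ℕ, (A k).indicator (fun _ => (L : ℝ≥0∞)) v = L := by
        intro k
        rw [Set.indicator_of_mem]
        simp only [hA, Set.mem_iInter, Finset.mem_range, Set.mem_compl_iff]
        intro j _
        exact hex j
      simp only [h3]
      rw [ENNReal.tsum_const_eq_top_of_ne_zero]
      · exact le_top
      · simp; omega
  calc expectedTime G p f₀ ε ≤ ∫⁻ v, ∑' k : ℕ, (A k).indicator (fun _ => (L : ℝ≥0∞)) v ∂μ :=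
        lintegral_mono key
    _ = ∑' k : ℕ, ∫⁻ v, (A k).indicator (fun _ => (L : ℝ≥0∞)) v ∂μ :=
        lintegral_tsum fun k => (measurable_const.indicator (hmA k)).aemeasurable
    _ = ∑' k : ℕ, (L : ℝ≥0∞) * (1 - (n : ℝ≥0∞)⁻¹ ^ L) ^ k := by
        refine tsum_congr fun k => ?_
        rw [lintegral_indicator_const (hmA k)]
        congr 1
        exact measure_no_block L w k
    _ = (L : ℝ≥0∞) * (1 - (1 - (n : ℝ≥0∞)⁻¹ ^ L))⁻¹ := by
        rw [ENNReal.tsum_mul_left, ENNReal.tsum_geometric]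
    _ = L * n ^ L := by
        congr 1
        have hn : (n : ℝ≥0∞)⁻¹ ≤ 1 := by
          rw [ENNReal.inv_le_one]
          exact_mod_cast Nat.one_le_iff_ne_zero.mpr (NeZero.ne n)
        rw [ENNReal.sub_sub_cancel ENNReal.one_ne_top (pow_le_one' hn L), ENNReal.inv_pow, inv_inv]

/-! ### The complete graph on four vertices -/

/-- `φ_p(x) = |x|^{p-2} x`, the derivative of `|x|^p / p`. -/
noncomputable def phi (p x : ℝ) : ℝ := |x| ^ (p - 2) * x

lemma phi_pos_eq {p x : ℝ} (hx : 0 < x) : phi p x = x ^ (p - 1) := by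
  unfold phi
  rw [abs_of_pos hx]
  nth_rewrite 2 [← Real.rpow_one x]
  rw [← Real.rpow_add hx]
  congr 1; ring

lemma phi_neg (p x : ℝ) : phi p (-x) = -phi p x := by
  unfold phi; rw [abs_neg]; ring

lemma phi_pos {p x : ℝ} (hx : 0 < x) : 0 < phi p x := by
  rw [phi_pos_eq hx]; exact Real.rpow_pos_of_pos hx _

lemma phi_nonneg {p x : ℝ} (hx : 0 ≤ x) : 0 ≤ phi p x :=
  mul_nonneg (Real.rpow_nonneg (abs_nonneg _) _) hx

lemma phi_le_one {p x : ℝ} (hp : 1 < p) (hx : x ≤ 1) : phi p x ≤ 1 := by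
  rcases le_or_gt x 0 with h | h
  · have : phi p x ≤ 0 := mul_nonpos_of_nonneg_of_nonpos (Real.rpow_nonneg (abs_nonneg _) _) h
    linarith
  · rw [phi_pos_eq h]; exact Real.rpow_le_one h.le hx (by linarith)

lemma neg_one_le_phi {p x : ℝ} (hp : 1 < p) (hx : -1 ≤ x) : -1 ≤ phi p x := by
  have := phi_le_one hp (x := -x) (by linarith)
  rw [phi_neg] at this; linarith

/-- The error `η(p) = 2^{-1/(p-1)}`. -/
noncomputable def eta (p : ℝ) : ℝ := (2:ℝ)⁻¹ ^ ((p - 1)⁻¹)

lemma eta_pos (p : ℝ) : 0 < eta p := Real.rpow_pos_of_pos (by norm_num) _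

lemma half_lt_phi {p x : ℝ} (hp : 1 < p) (hx : eta p < x) : 1 / 2 < phi p x := by
  have h0 := eta_pos p
  rw [phi_pos_eq (by linarith)]
  have h1 : eta p ^ (p - 1) < x ^ (p - 1) := Real.rpow_lt_rpow h0.le hx (by linarith)
  have h2 : eta p ^ (p - 1) = 1 / 2 := by
    unfold eta
    rw [← Real.rpow_mul (by norm_num), inv_mul_cancel₀ (by linarith), Real.rpow_one]
    norm_num
  linarith

lemma stat4 {p : ℝ} (hp : 1 < p) (f : Fin 4 → ℝ) (v : Fin 4) :
    ∑ u, (if u = v then 0 else phi p (minimizer ⊤ p f v - f u)) = 0 := by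
  classical
  have hne : ∃ w : Fin 4, w ≠ v := exists_ne v
  obtain ⟨w, hw⟩ := hne
  have h := minimizer_stationary (⊤ : SimpleGraph (Fin 4)) hp f v w (by simpa using hw.symm)
  refine Eq.trans ?_ h
  rw [Finset.sum_filter]
  refine Finset.sum_congr rfl fun u _ => ?_
  by_cases huv : u = v
  · subst huv; simp
  · rw [if_neg huv, if_pos (by simpa using Ne.symm huv)]; rfl

/-- At least two of three numbers satisfy a predicate. -/
def TwoOf (P : ℝ → Prop) (a b c : ℝ) : Prop := (P a ∧ P b) ∨ (P a ∧ P c) ∨ (P b ∧ P c)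

lemma three_range {p y a b c : ℝ}
    (h : phi p (y - a) + phi p (y - b) + phi p (y - c) = 0) {l u : ℝ}
    (ha : l ≤ a ∧ a ≤ u) (hb : l ≤ b ∧ b ≤ u) (hc : l ≤ c ∧ c ≤ u) : l ≤ y ∧ y ≤ u := by
  constructor
  · by_contra hy
    push Not at hy
    have h1 : phi p (y - a) < 0 := by
      have := phi_pos (p := p) (x := a - y) (by linarith)
      rw [← neg_sub, phi_neg] at this; linarith
    have h2 : phi p (y - b) < 0 := by
      have := phi_pos (p := p) (x := b - y) (by linarith)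
      rw [← neg_sub, phi_neg] at this; linarith
    have h3 : phi p (y - c) < 0 := by
      have := phi_pos (p := p) (x := c - y) (by linarith)
      rw [← neg_sub, phi_neg] at this; linarith
    linarith
  · by_contra hy
    push Not at hy
    have h1 := phi_pos (p := p) (x := y - a) (by linarith)
    have h2 := phi_pos (p := p) (x := y - b) (by linarith)
    have h3 := phi_pos (p := p) (x := y - c) (by linarith)
    linarith

lemma three_upper {p y a b c u : ℝ} (hp : 1 < p)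
    (h : phi p (y - a) + phi p (y - b) + phi p (y - c) = 0)
    (ha : 0 ≤ a ∧ a ≤ 1) (hb : 0 ≤ b ∧ b ≤ 1) (hc : 0 ≤ c ∧ c ≤ 1)
    (htwo : TwoOf (fun x => x ≤ u) a b c) : y ≤ u + eta p := by
  have hy := three_range h ha hb hc
  by_contra hcon
  push Not at hcon
  have ma := neg_one_le_phi hp (x := y - a) (by linarith)
  have mb := neg_one_le_phi hp (x := y - b) (by linarith)
  have mc := neg_one_le_phi hp (x := y - c) (by linarith)
  rcases htwo with ⟨h1, h2⟩ | ⟨h1, h2⟩ | ⟨h1, h2⟩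
  · have := half_lt_phi hp (x := y - a) (by linarith)
    have := half_lt_phi hp (x := y - b) (by linarith)
    linarith
  · have := half_lt_phi hp (x := y - a) (by linarith)
    have := half_lt_phi hp (x := y - c) (by linarith)
    linarith
  · have := half_lt_phi hp (x := y - b) (by linarith)
    have := half_lt_phi hp (x := y - c) (by linarith)
    linarith

lemma three_lower {p y a b c l : ℝ} (hp : 1 < p)
    (h : phi p (y - a) + phi p (y - b) + phi p (y - c) = 0)
    (ha : 0 ≤ a ∧ a ≤ 1) (hb : 0 ≤ b ∧ b ≤ 1) (hc : 0 ≤ c ∧ c ≤ 1)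
    (htwo : TwoOf (fun x => l ≤ x) a b c) : l - eta p ≤ y := by
  have h' : phi p ((1 - y) - (1 - a)) + phi p ((1 - y) - (1 - b)) + phi p ((1 - y) - (1 - c)) = 0 := by
    have e1 : (1 - y) - (1 - a) = -(y - a) := by ring
    have e2 : (1 - y) - (1 - b) = -(y - b) := by ring
    have e3 : (1 - y) - (1 - c) = -(y - c) := by ring
    rw [e1, e2, e3, phi_neg, phi_neg, phi_neg]; linarith
  have := three_upper hp h' (u := 1 - l) ⟨by linarith, by linarith⟩ ⟨by linarith, by linarith⟩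
    ⟨by linarith, by linarith⟩ (by
      rcases htwo with ⟨h1, h2⟩ | ⟨h1, h2⟩ | ⟨h1, h2⟩
      · exact Or.inl ⟨by linarith, by linarith⟩
      · exact Or.inr (Or.inl ⟨by linarith, by linarith⟩)
      · exact Or.inr (Or.inr ⟨by linarith, by linarith⟩))
  linarith

lemma exists_median (a b c : ℝ) :
    ∃ m, TwoOf (fun x => x ≤ m) a b c ∧ TwoOf (fun x => m ≤ x) a b c := by
  unfold TwoOf
  rcases le_total a b with h1 | h1 <;> rcases le_total b c with h2 | h2 <;>
    rcases le_total a c with h3 | h3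
  · exact ⟨b, Or.inl ⟨h1, le_rfl⟩, Or.inr (Or.inr ⟨le_rfl, h2⟩)⟩
  · exact ⟨b, Or.inl ⟨h1, le_rfl⟩, Or.inr (Or.inr ⟨le_rfl, h2⟩)⟩
  · exact ⟨c, Or.inr (Or.inl ⟨h3, le_rfl⟩), Or.inr (Or.inr ⟨h2, le_rfl⟩)⟩
  · exact ⟨a, Or.inr (Or.inl ⟨le_rfl, h3⟩), Or.inl ⟨le_rfl, h1⟩⟩
  · exact ⟨a, Or.inl ⟨le_rfl, h1⟩, Or.inr (Or.inl ⟨le_rfl, h3⟩)⟩
  · exact ⟨c, Or.inr (Or.inr ⟨h2, le_rfl⟩), Or.inr (Or.inl ⟨h3, le_rfl⟩)⟩
  · exact ⟨b, Or.inr (Or.inr ⟨le_rfl, h2⟩), Or.inl ⟨h1, le_rfl⟩⟩
  · exact ⟨b, Or.inr (Or.inr ⟨le_rfl, h2⟩), Or.inl ⟨h1, le_rfl⟩⟩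

/-- The numerical core of the fast consensus for `p` close to `1`. -/
lemma four_steps {p b c d x₀ x₁ x₂ x₃ : ℝ} (hp : 1 < p)
    (hb : 0 ≤ b ∧ b ≤ 1) (hc : 0 ≤ c ∧ c ≤ 1) (hd : 0 ≤ d ∧ d ≤ 1)
    (h₀ : phi p (x₀ - b) + phi p (x₀ - c) + phi p (x₀ - d) = 0)
    (h₁ : phi p (x₁ - x₀) + phi p (x₁ - c) + phi p (x₁ - d) = 0)
    (h₂ : phi p (x₂ - x₀) + phi p (x₂ - x₁) + phi p (x₂ - d) = 0)
    (h₃ : phi p (x₃ - x₀) + phi p (x₃ - x₁) + phi p (x₃ - x₂) = 0) :
    ∃ m, (m - 4 * eta p ≤ x₀ ∧ x₀ ≤ m + 4 * eta p) ∧ (m - 4 * eta p ≤ x₁ ∧ x₁ ≤ m + 4 * eta p) ∧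
      (m - 4 * eta p ≤ x₂ ∧ x₂ ≤ m + 4 * eta p) ∧ (m - 4 * eta p ≤ x₃ ∧ x₃ ≤ m + 4 * eta p) := by
  have he := eta_pos p
  obtain ⟨m, hle, hge⟩ := exists_median b c d
  have r₀ := three_range h₀ hb hc hd
  have r₁ := three_range h₁ r₀ hc hd
  have r₂ := three_range h₂ r₀ r₁ hd
  have u₀ := three_upper hp h₀ hb hc hd hle
  have l₀ := three_lower hp h₀ hb hc hd hge
  have u₁ := three_upper hp h₁ (u := m + eta p) r₀ hc hd (by
    unfold TwoOf at hle ⊢
    rcases hle with ⟨h1, h2⟩ | ⟨h1, h2⟩ | ⟨h1, h2⟩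
    · exact Or.inl ⟨u₀, by linarith⟩
    · exact Or.inr (Or.inl ⟨u₀, by linarith⟩)
    · exact Or.inl ⟨u₀, by linarith⟩)
  have l₁ := three_lower hp h₁ (l := m - eta p) r₀ hc hd (by
    unfold TwoOf at hge ⊢
    rcases hge with ⟨h1, h2⟩ | ⟨h1, h2⟩ | ⟨h1, h2⟩
    · exact Or.inl ⟨l₀, by linarith⟩
    · exact Or.inr (Or.inl ⟨l₀, by linarith⟩)
    · exact Or.inl ⟨l₀, by linarith⟩)
  have u₂ := three_upper hp h₂ (u := m + 2 * eta p) r₀ r₁ hd (Or.inl ⟨by linarith, by linarith⟩)
  have l₂ := three_lower hp h₂ (l := m - 2 * eta p) r₀ r₁ hd (Or.inl ⟨by linarith, by linarith⟩)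
  have u₃ := three_upper hp h₃ (u := m + 2 * eta p) r₀ r₁ r₂ (Or.inl ⟨by linarith, by linarith⟩)
  have l₃ := three_lower hp h₃ (l := m - 2 * eta p) r₀ r₁ r₂ (Or.inl ⟨by linarith, by linarith⟩)
  exact ⟨m, ⟨by linarith, by linarith⟩, ⟨by linarith, by linarith⟩, ⟨by linarith, by linarith⟩,
    ⟨by linarith, by linarith⟩⟩

lemma osc_le {n : ℕ} [NeZero n] {f : Fin n → ℝ} {l h : ℝ} (hf : ∀ u, l ≤ f u ∧ f u ≤ h) :
    osc f ≤ h - l := by
  unfold osc
  have : Nonempty (Fin n) := ⟨0⟩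
  have h1 : (⨆ u, f u) ≤ h := ciSup_le fun u => (hf u).2
  have h2 : l ≤ ⨅ u, f u := le_ciInf fun u => (hf u).1
  linarith

lemma sub_le_osc {n : ℕ} (f : Fin n → ℝ) (u w : Fin n) : f u - f w ≤ osc f := by
  unfold osc
  have h1 : f u ≤ ⨆ u, f u := le_ciSup (Set.finite_range f).bddAbove u
  have h2 : (⨅ u, f u) ≤ f w := ciInf_le (Set.finite_range f).bddBelow w
  linarith

/-- The cyclic word `0, 1, 2, 3, 0, 1, 2, 3, …`. -/
def cyc (i : ℕ) : Fin 4 := Fin.ofNat 4 i

lemma stat4_zero {p : ℝ} (hp : 1 < p) (f : Fin 4 → ℝ) :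
    phi p (minimizer ⊤ p f 0 - f 1) + phi p (minimizer ⊤ p f 0 - f 2)
      + phi p (minimizer ⊤ p f 0 - f 3) = 0 := by
  have := stat4 hp f 0
  rw [Fin.sum_univ_four] at this
  simpa using this

lemma stat4_one {p : ℝ} (hp : 1 < p) (f : Fin 4 → ℝ) :
    phi p (minimizer ⊤ p f 1 - f 0) + phi p (minimizer ⊤ p f 1 - f 2)
      + phi p (minimizer ⊤ p f 1 - f 3) = 0 := by
  have := stat4 hp f 1
  rw [Fin.sum_univ_four] at this
  simpa using this

lemma stat4_two {p : ℝ} (hp : 1 < p) (f : Fin 4 → ℝ) :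
    phi p (minimizer ⊤ p f 2 - f 0) + phi p (minimizer ⊤ p f 2 - f 1)
      + phi p (minimizer ⊤ p f 2 - f 3) = 0 := by
  have := stat4 hp f 2
  rw [Fin.sum_univ_four] at this
  simpa using this

lemma stat4_three {p : ℝ} (hp : 1 < p) (f : Fin 4 → ℝ) :
    phi p (minimizer ⊤ p f 3 - f 0) + phi p (minimizer ⊤ p f 3 - f 1)
      + phi p (minimizer ⊤ p f 3 - f 2) = 0 := by
  have := stat4 hp f 3
  rw [Fin.sum_univ_four] at this
  simpa using this

/-- The profile after one round of updates in the order `0, 1, 2, 3`. -/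
lemma cyc_round (p : ℝ) (f : Fin 4 → ℝ) : ∃ x₀ x₁ x₂ x₃ : ℝ,
    profile (⊤ : SimpleGraph (Fin 4)) p f cyc 4 = ![x₀, x₁, x₂, x₃] ∧
    x₀ = minimizer ⊤ p f 0 ∧ x₁ = minimizer ⊤ p ![x₀, f 1, f 2, f 3] 1 ∧
    x₂ = minimizer ⊤ p ![x₀, x₁, f 2, f 3] 2 ∧ x₃ = minimizer ⊤ p ![x₀, x₁, x₂, f 3] 3 := by
  have e1 : ∀ x₀ : ℝ, Function.update f 0 x₀ = ![x₀, f 1, f 2, f 3] := by
    intro x₀; ext i; fin_cases i <;> simp [Function.update]
  have e2 : ∀ x₀ x₁ b : ℝ, Function.update ![x₀, b, f 2, f 3] 1 x₁ = ![x₀, x₁, f 2, f 3] := by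
    intro x₀ x₁ b; ext i; fin_cases i <;> simp [Function.update]
  have e3 : ∀ x₀ x₁ x₂ c : ℝ, Function.update ![x₀, x₁, c, f 3] 2 x₂ = ![x₀, x₁, x₂, f 3] := by
    intro x₀ x₁ x₂ c; ext i; fin_cases i <;> simp [Function.update]
  have e4 : ∀ x₀ x₁ x₂ x₃ d : ℝ, Function.update ![x₀, x₁, x₂, d] 3 x₃ = ![x₀, x₁, x₂, x₃] := by
    intro x₀ x₁ x₂ x₃ d; ext i; fin_cases i <;> simp [Function.update]
  have c0 : cyc 0 = 0 := rfl
  have c1 : cyc 1 = 1 := rfl
  have c2 : cyc 2 = 2 := rfl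
  have c3 : cyc 3 = 3 := rfl
  refine ⟨_, _, _, _, ?_, rfl, rfl, rfl, rfl⟩
  simp only [profile, c0, c1, c2, c3, e1, e2, e3, e4]

lemma profile_range {p : ℝ} (hp : 1 < p) (f : Fin 4 → ℝ) {l h : ℝ} (hf : ∀ u, l ≤ f u ∧ f u ≤ h)
    (v : ℕ → Fin 4) (t : ℕ) (u : Fin 4) :
    l ≤ profile (⊤ : SimpleGraph (Fin 4)) p f v t u ∧
      profile (⊤ : SimpleGraph (Fin 4)) p f v t u ≤ h := by
  induction t generalizing u with
  | zero => exact hf u
  | succ t ih =>
    simp only [profile]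
    by_cases huv : u = v t
    · subst huv
      rw [Function.update_self]
      set g := profile (⊤ : SimpleGraph (Fin 4)) p f v t
      generalize v t = w
      fin_cases w
      · exact three_range (stat4_zero hp g) (ih _) (ih _) (ih _)
      · exact three_range (stat4_one hp g) (ih _) (ih _) (ih _)
      · exact three_range (stat4_two hp g) (ih _) (ih _) (ih _)
      · exact three_range (stat4_three hp g) (ih _) (ih _) (ih _)
    · rw [Function.update_of_ne huv]; exact ih u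

lemma osc_round_near_one {p : ℝ} (hp : 1 < p) (f : Fin 4 → ℝ)
    (hf : ∀ u, f u ∈ Set.Icc (0:ℝ) 1) :
    osc (profile (⊤ : SimpleGraph (Fin 4)) p f cyc 4) ≤ 8 * eta p := by
  obtain ⟨x₀, x₁, x₂, x₃, h, h₀, h₁, h₂, h₃⟩ := cyc_round p f
  have s₀ := stat4_zero hp f
  rw [← h₀] at s₀
  have s₁ := stat4_one hp ![x₀, f 1, f 2, f 3]
  rw [← h₁] at s₁
  have s₂ := stat4_two hp ![x₀, x₁, f 2, f 3]
  rw [← h₂] at s₂
  have s₃ := stat4_three hp ![x₀, x₁, x₂, f 3]
  rw [← h₃] at s₃
  obtain ⟨m, k₀, k₁, k₂, k₃⟩ := four_steps hp (hf 1) (hf 2) (hf 3) s₀ (by simpa using s₁)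
    (by simpa using s₂) (by simpa using s₃)
  rw [h]
  have := osc_le (f := ![x₀, x₁, x₂, x₃]) (l := m - 4 * eta p) (h := m + 4 * eta p) (by
    intro u; fin_cases u
    · simpa using k₀
    · simpa using k₁
    · simpa using k₂
    · simpa using k₃)
  linarith

/-! ### The linear case `p = 2` -/

lemma phi_two (x : ℝ) : phi 2 x = x := by
  unfold phi; norm_num

lemma min2 (f : Fin 4 → ℝ) (v : Fin 4) :
    3 * minimizer (⊤ : SimpleGraph (Fin 4)) 2 f v = (∑ u, f u) - f v := by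
  have hp : (1:ℝ) < 2 := by norm_num
  rw [Fin.sum_univ_four]
  fin_cases v
  · have := stat4_zero hp f; simp only [phi_two] at this; simp; linarith
  · have := stat4_one hp f; simp only [phi_two] at this; simp; linarith
  · have := stat4_two hp f; simp only [phi_two] at this; simp; linarith
  · have := stat4_three hp f; simp only [phi_two] at this; simp; linarith

lemma round_two (f : Fin 4 → ℝ) {l h : ℝ} (hf : ∀ u, l ≤ f u ∧ f u ≤ h) :
    ∃ l' h' : ℝ, h' - l' = 2 / 3 * (h - l) ∧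
      ∀ u, l' ≤ profile (⊤ : SimpleGraph (Fin 4)) 2 f cyc 4 u ∧
        profile (⊤ : SimpleGraph (Fin 4)) 2 f cyc 4 u ≤ h' := by
  have hp : (1:ℝ) < 2 := by norm_num
  obtain ⟨x₀, x₁, x₂, x₃, hx, h₀, h₁, h₂, h₃⟩ := cyc_round 2 f
  have s₀ := stat4_zero hp f
  rw [← h₀] at s₀
  have s₁ := stat4_one hp ![x₀, f 1, f 2, f 3]
  rw [← h₁] at s₁
  have s₂ := stat4_two hp ![x₀, x₁, f 2, f 3]
  rw [← h₂] at s₂
  have s₃ := stat4_three hp ![x₀, x₁, x₂, f 3]
  rw [← h₃] at s₃
  simp only [phi_two] at s₀ s₁ s₂ s₃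
  simp at s₁ s₂ s₃
  have b := hf 1
  have c := hf 2
  have d := hf 3
  refine ⟨l + (f 3 - l) / 3, h - (h - f 3) / 3, by ring, ?_⟩
  rw [hx]
  intro u
  fin_cases u
  · simp; constructor <;> linarith
  · simp; constructor <;> linarith
  · simp; constructor <;> linarith
  · simp; constructor <;> linarith

lemma cyc_shift (k i : ℕ) : cyc (4 * k + i) = cyc i := by
  unfold cyc
  apply Fin.ext
  simp [Fin.ofNat]

lemma rounds_two (f : Fin 4 → ℝ) (hf : ∀ u, f u ∈ Set.Icc (0:ℝ) 1) (k : ℕ) :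
    osc (profile (⊤ : SimpleGraph (Fin 4)) 2 f cyc (4 * k)) ≤ (2 / 3) ^ k := by
  have key : ∃ l h : ℝ, h - l = (2 / 3) ^ k ∧
      ∀ u, l ≤ profile (⊤ : SimpleGraph (Fin 4)) 2 f cyc (4 * k) u ∧
        profile (⊤ : SimpleGraph (Fin 4)) 2 f cyc (4 * k) u ≤ h := by
    induction k with
    | zero => exact ⟨0, 1, by norm_num, fun u => hf u⟩
    | succ k ih =>
      obtain ⟨l, h, hlh, hr⟩ := ih
      obtain ⟨l', h', hlh', hr'⟩ := round_two _ hr
      refine ⟨l', h', by rw [hlh', hlh, pow_succ]; ring, ?_⟩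
      have e : 4 * (k + 1) = 4 * k + 4 := by ring
      rw [e, profile_add]
      rw [profile_congr _ _ _ (fun i => cyc (4 * k + i)) cyc 4 (fun i _ => cyc_shift k i)]
      exact hr'
  obtain ⟨l, h, hlh, hr⟩ := key
  exact (osc_le hr).trans hlh.le

/-- The state of the `p = 2` dynamics after at least one update of a vertex other than `3`:
all values are `a w / 3^k`, and exactly one of the integers `a w` is not divisible by `3`. -/
def Inv (t : ℕ) (f : Fin 4 → ℝ) : Prop :=
  ∃ k ≤ t, ∃ (a : Fin 4 → ℤ) (u : Fin 4), (∀ w, f w = a w / 3 ^ k) ∧ ¬ (3 ∣ a u) ∧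
    (∀ w, w ≠ u → 3 ∣ a w) ∧ 3 * a u = (∑ w, a w) - a u

lemma Inv.osc_ge {t : ℕ} {f : Fin 4 → ℝ} (h : Inv t f) : (1 / 3 : ℝ) ^ t ≤ osc f := by
  obtain ⟨k, hk, a, u, hf, hu, hw, -⟩ := h
  obtain ⟨w, hwu⟩ : ∃ w : Fin 4, w ≠ u := exists_ne u
  have hne : a u ≠ a w := by
    intro h; apply hu; rw [h]; exact hw w hwu
  have h1 : (1 : ℝ) ≤ |(a u : ℝ) - a w| := by
    have : (1 : ℤ) ≤ |a u - a w| := Int.one_le_abs (sub_ne_zero.mpr hne)
    exact_mod_cast this
  have h2 : |f u - f w| ≤ osc f := by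
    rw [abs_le]
    constructor
    · have := sub_le_osc f w u; linarith
    · exact sub_le_osc f u w
  have h3 : |f u - f w| = |(a u : ℝ) - a w| / 3 ^ k := by
    rw [hf u, hf w, ← sub_div, abs_div, abs_of_pos (by positivity : (0:ℝ) < 3 ^ k)]
  have h4 : (1 / 3 : ℝ) ^ t ≤ (1 / 3) ^ k := pow_le_pow_of_le_one (by norm_num) (by norm_num) hk
  have h5 : (1 / 3 : ℝ) ^ k ≤ |f u - f w| := by
    rw [h3, one_div, inv_pow, inv_eq_one_div]
    exact div_le_div_of_nonneg_right h1 (by positivity)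
  linarith

lemma Inv.step {t : ℕ} {f : Fin 4 → ℝ} (h : Inv t f) (v : Fin 4) :
    Inv (t + 1) (Function.update f v (minimizer (⊤ : SimpleGraph (Fin 4)) 2 f v)) := by
  classical
  obtain ⟨k, hk, a, u, hf, hu, hw, ha⟩ := h
  have hm := min2 f v
  have hsum : (∑ w, f w) = ((∑ w, a w : ℤ) : ℝ) / 3 ^ k := by
    push_cast
    rw [Finset.sum_div]
    exact Finset.sum_congr rfl fun w _ => hf w
  rw [hsum, hf v] at hm
  by_cases hvu : v = u
  · subst hvu
    have hfix : minimizer (⊤ : SimpleGraph (Fin 4)) 2 f v = f v := by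
      have h2 : ((∑ w, a w : ℤ) : ℝ) = 4 * a v := by
        have : (∑ w, a w) = 4 * a v := by linarith
        exact_mod_cast this
      rw [h2] at hm
      rw [hf v]
      have : (4 * (a v : ℝ)) / 3 ^ k - a v / 3 ^ k = 3 * (a v / 3 ^ k) := by ring
      linarith
    rw [hfix, Function.update_eq_self]
    exact ⟨k, by omega, a, v, hf, hu, hw, ha⟩
  · refine ⟨k + 1, by omega, fun w => if w = v then (∑ w, a w) - a v else 3 * a w, v, ?_, ?_, ?_, ?_⟩
    · intro w
      by_cases hwv : w = v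
      · subst hwv
        rw [Function.update_self]
        simp only [if_true]
        push_cast at hm ⊢
        rw [pow_succ]
        field_simp at hm ⊢
        linarith
      · rw [Function.update_of_ne hwv, hf w]
        simp only [if_neg hwv]
        push_cast
        rw [pow_succ]
        field_simp
    · simp only [if_true]
      intro hd
      apply hu
      have h1 : ∑ w, a w = a u + ∑ w ∈ Finset.univ.erase u, a w :=
        (Finset.add_sum_erase _ _ (Finset.mem_univ u)).symm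
      have h2 : (3:ℤ) ∣ ∑ w ∈ Finset.univ.erase u, a w :=
        Finset.dvd_sum fun w hw' => hw w (Finset.ne_of_mem_erase hw')
      have h3 : (3:ℤ) ∣ a v := hw v hvu
      have h4 : a u = ((∑ w, a w) - a v) + a v - ∑ w ∈ Finset.univ.erase u, a w := by
        rw [h1]; ring
      rw [h4]
      exact dvd_sub (dvd_add hd h3) h2
    · intro w hwv
      simp only [if_neg hwv]
      exact dvd_mul_right _ _
    · simp only [if_true]
      have h1 : (∑ w, if w = v then (∑ w, a w) - a v else 3 * a w)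
          = ((∑ w, a w) - a v) + ∑ w ∈ Finset.univ.erase v, 3 * a w := by
        rw [← Finset.add_sum_erase _ _ (Finset.mem_univ v)]
        simp only [if_true]
        congr 1
        exact Finset.sum_congr rfl fun w hw' => by rw [if_neg (Finset.ne_of_mem_erase hw')]
      have h2 : ∑ w, a w = a v + ∑ w ∈ Finset.univ.erase v, a w :=
        (Finset.add_sum_erase _ _ (Finset.mem_univ v)).symm
      rw [h1, ← Finset.mul_sum, h2]
      ring

lemma profile_inv (v : ℕ → Fin 4) (hv : v 0 ≠ 3) (t : ℕ) :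
    Inv (t + 1) (profile (⊤ : SimpleGraph (Fin 4)) 2 (Pi.single 3 1) v (t + 1)) := by
  classical
  induction t with
  | zero =>
    simp only [profile]
    have hm := min2 (Pi.single 3 1) (v 0)
    rw [Finset.sum_pi_single', if_pos (Finset.mem_univ _), Pi.single_eq_of_ne hv] at hm
    refine ⟨1, le_rfl, fun w => if w = v 0 then 1 else if w = 3 then 3 else 0, v 0, ?_, ?_, ?_, ?_⟩
    · intro w
      by_cases hw : w = v 0
      · subst hw; rw [Function.update_self]; simp; linarith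
      · rw [Function.update_of_ne hw]
        by_cases hw3 : w = 3
        · subst hw3; simp [hw]
        · simp [hw, hw3]
    · simp
    · intro w hw
      by_cases hw3 : w = 3
      · subst hw3; simp [hw]
      · simp [hw, hw3]
    · rw [Fin.sum_univ_four]
      generalize v 0 = z at hv
      fin_cases z
      · simp
      · simp
      · simp
      · simp at hv
  | succ t ih => exact ih.step _

lemma osc_profile_two (v : ℕ → Fin 4) (hv : v 0 ≠ 3) (t : ℕ) :
    (1 / 3 : ℝ) ^ t ≤ osc (profile (⊤ : SimpleGraph (Fin 4)) 2 (Pi.single 3 1) v t) := by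
  cases t with
  | zero =>
    have := sub_le_osc (Pi.single 3 1 : Fin 4 → ℝ) 3 0
    simpa [profile] using this
  | succ t => exact (profile_inv v hv t).osc_ge

lemma expectedTime_two_ge (N : ℕ) {ε : ℝ} (hε : ε < (1 / 3 : ℝ) ^ N) :
    (N : ℝ≥0∞) * (3 / 4) ≤ expectedTime (⊤ : SimpleGraph (Fin 4)) 2 (Pi.single 3 1) ε := by
  set μ := Measure.infinitePi fun _ : ℕ => ProbabilityTheory.uniformOn (Set.univ : Set (Fin 4))
    with hμ
  set B : Set (ℕ → Fin 4) := {v | v 0 ≠ 3} with hB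
  have hmB : MeasurableSet B := by
    have : B = (fun v : ℕ → Fin 4 => v 0) ⁻¹' {3}ᶜ := by ext v; simp [hB]
    rw [this]
    exact (measurable_pi_apply 0 : Measurable fun v : ℕ → Fin 4 => v 0)
      (MeasurableSet.singleton 3).compl
  have hμB : μ B = 3 / 4 := by
    have h1 : B = Set.pi ((({0} : Finset ℕ) : Set ℕ)) fun _ => ({3} : Set (Fin 4))ᶜ := by
      ext v; simp [hB]
    have h5 := Measure.infinitePi_pi
      (μ := fun _ : ℕ => ProbabilityTheory.uniformOn (Set.univ : Set (Fin 4)))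
      (s := {0}) (t := fun _ => ({3} : Set (Fin 4))ᶜ)
      (by intro i _; exact (MeasurableSet.singleton _).compl)
    rw [h1, hμ, h5, Finset.prod_singleton, ProbabilityTheory.uniformOn_univ,
      Measure.count_apply (MeasurableSet.singleton _).compl]
    have : ({3}ᶜ : Set (Fin 4)).encard = 3 := by
      have h6 : ({3}ᶜ : Set (Fin 4)) = (({0, 1, 2} : Finset (Fin 4)) : Set (Fin 4)) := by
        ext i; fin_cases i <;> simp
      rw [h6, Set.encard_coe_eq_coe_finsetCard]
      rfl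
    rw [this]
    simp
  have h1 : ∀ v, B.indicator (fun _ => (N : ℝ≥0∞)) v
      ≤ consensusTime (⊤ : SimpleGraph (Fin 4)) 2 (Pi.single 3 1) ε v := by
    intro v
    by_cases hv : v ∈ B
    · rw [Set.indicator_of_mem hv]
      refine le_iInf₂ fun t ht => ?_
      have h2 := osc_profile_two v hv t
      have h3 : ¬ t ≤ N := by
        intro htN
        have h4 : (1 / 3 : ℝ) ^ N ≤ (1 / 3) ^ t :=
          pow_le_pow_of_le_one (by norm_num) (by norm_num) htN
        linarith
      exact_mod_cast (not_le.mp h3).le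
    · rw [Set.indicator_of_notMem hv]; exact zero_le
  calc (N : ℝ≥0∞) * (3 / 4) = ∫⁻ v, B.indicator (fun _ => (N : ℝ≥0∞)) v ∂μ := by
        rw [lintegral_indicator_const hmB, hμB]
    _ ≤ _ := lintegral_mono h1

/-! ### Uniqueness of the minimizer (a check of the definition, not used below) -/

lemma phi_strictMono {p : ℝ} (hp : 1 < p) : StrictMono (phi p) := by
  have h0 : phi p 0 = 0 := by unfold phi; simp
  have hpos : ∀ x y : ℝ, 0 ≤ x → x < y → phi p x < phi p y := by
    intro x y hx hxy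
    rcases hx.eq_or_lt with h | h
    · rw [← h, h0]; exact phi_pos (by linarith)
    · rw [phi_pos_eq h, phi_pos_eq (h.trans hxy)]
      exact Real.rpow_lt_rpow hx hxy (by linarith)
  intro x y hxy
  rcases le_or_gt 0 x with hx | hx
  · exact hpos x y hx hxy
  · rcases le_or_gt y 0 with hy | hy
    · have := hpos (-y) (-x) (by linarith) (by linarith)
      rw [phi_neg, phi_neg] at this; linarith
    · have h1 := phi_pos (p := p) (x := -x) (by linarith)
      rw [phi_neg] at h1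
      have h2 := phi_pos (p := p) hy
      linarith

/-- For `p > 1` and a vertex `v` with a neighbour, `minimizer G p f v` is the unique
minimizer of the energy. -/
lemma minimizer_unique {n : ℕ} (G : SimpleGraph (Fin n)) {p : ℝ} (hp : 1 < p)
    (f : Fin n → ℝ) (v w : Fin n) (hvw : G.Adj v w) (y : ℝ)
    (hy : ∀ z, energy G p f v y ≤ energy G p f v z) : y = minimizer G p f v := by
  classical
  set S := Finset.univ.filter (fun u => G.Adj v u) with hS
  have hwS : w ∈ S := by simp [hS, hvw]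
  have hstat : ∀ y : ℝ, (∀ z, energy G p f v y ≤ energy G p f v z) →
      ∑ u ∈ S, phi p (y - f u) = 0 := by
    intro y hy
    have h1 := energy_hasDerivAt G hp f v y
    have h2 : IsLocalMin (energy G p f v) y := Filter.Eventually.of_forall hy
    have h3 := h2.hasDerivAt_eq_zero h1
    have h4 : p * ∑ u ∈ S, phi p (y - f u) = 0 := by
      rw [← h3, Finset.mul_sum]
      refine Finset.sum_congr ?_ fun u _ => by unfold phi; ring
      ext; simp [hS]
    exact (mul_eq_zero.mp h4).resolve_left (by linarith)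
  have hy1 := hstat y hy
  have hy2 := hstat _ (minimizer_spec G hp f v w hvw)
  have hmono : ∀ a b : ℝ, a < b → ∑ u ∈ S, phi p (a - f u) < ∑ u ∈ S, phi p (b - f u) := by
    intro a b hab
    exact Finset.sum_lt_sum_of_nonempty ⟨w, hwS⟩ fun u _ => phi_strictMono hp (by linarith)
  rcases lt_trichotomy y (minimizer G p f v) with h | h | h
  · have := hmono _ _ h; linarith
  · exact h
  · have := hmono _ _ h; linarith

/-! ### The main theorem -/

/-- There is no absolute constant `C` with `E τ_{p₂}(ε) ≤ C E τ_{p₁}(ε)` for all connected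
graphs, all initial profiles, all `ε > 0` and all `1 < p₁ < p₂ < ∞`, even if the
`p₁`-dynamics is started from its own worst initial profile `g₀`. -/
theorem result (C : ℝ≥0) :
    ∃ (n : ℕ) (G : SimpleGraph (Fin n)) (f₀ : Fin n → ℝ) (ε p₁ p₂ : ℝ),
      1 < n ∧ G.Connected ∧ (∀ v, f₀ v ∈ Set.Icc (0 : ℝ) 1) ∧ 0 < ε ∧ 1 < p₁ ∧ p₁ < p₂ ∧
      expectedTime G p₂ f₀ ε < ∞ ∧
      ∀ g₀ : Fin n → ℝ, (∀ v, g₀ v ∈ Set.Icc (0 : ℝ) 1) →
        C * expectedTime G p₁ g₀ ε < expectedTime G p₂ f₀ ε := by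
  obtain ⟨N, hN⟩ := exists_nat_gt (((C : ℝ) * 1024) * (4 / 3))
  obtain ⟨M, hM⟩ := exists_pow_lt_of_lt_one
    (by positivity : (0:ℝ) < (1 / 3 : ℝ) ^ (N + 1) / 8) (by norm_num : (1 / 2 : ℝ) < 1)
  set ε : ℝ := (1 / 3 : ℝ) ^ (N + 1) with hε
  set p₁ : ℝ := 1 + ((M : ℝ) + 2)⁻¹ with hp₁
  have hMpos : (0:ℝ) < (M : ℝ) + 2 := by positivity
  have hp₁1 : 1 < p₁ := by rw [hp₁]; have := inv_pos.mpr hMpos; linarith
  have hp₁2 : p₁ < 2 := by
    rw [hp₁]
    have : ((M : ℝ) + 2)⁻¹ < 1 := inv_lt_one_of_one_lt₀ (by have : (0:ℝ) ≤ M := M.cast_nonneg; linarith)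
    linarith
  have heta : 8 * eta p₁ ≤ ε := by
    have h1 : eta p₁ = (1 / 2 : ℝ) ^ (M + 2) := by
      unfold eta
      have : (p₁ - 1)⁻¹ = ((M + 2 : ℕ) : ℝ) := by rw [hp₁]; push_cast; simp
      rw [this, Real.rpow_natCast, one_div]
    have h2 : (1 / 2 : ℝ) ^ (M + 2) ≤ (1 / 2) ^ M :=
      pow_le_pow_of_le_one (by norm_num) (by norm_num) (by omega)
    rw [h1]; linarith
  have hf₀ : ∀ v : Fin 4, (Pi.single 3 1 : Fin 4 → ℝ) v ∈ Set.Icc (0 : ℝ) 1 := by
    intro v
    by_cases hv : v = 3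
    · subst hv; simp
    · rw [Pi.single_eq_of_ne hv]; simp
  refine ⟨4, ⊤, Pi.single 3 1, ε, p₁, 2, by norm_num, SimpleGraph.connected_top, hf₀,
    by positivity, hp₁1, hp₁2, ?_, ?_⟩
  · obtain ⟨k, hk⟩ := exists_pow_lt_of_lt_one (by positivity : (0:ℝ) < ε)
      (by norm_num : (2 / 3 : ℝ) < 1)
    have h1 : ∀ f : Fin 4 → ℝ, (∀ u, f u ∈ Set.Icc (0:ℝ) 1) →
        osc (profile (⊤ : SimpleGraph (Fin 4)) 2 f cyc (4 * (k + 1))) ≤ ε := by
      intro f hf
      refine (rounds_two f hf (k + 1)).trans ?_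
      have : (2 / 3 : ℝ) ^ (k + 1) ≤ (2 / 3) ^ k :=
        pow_le_pow_of_le_one (by norm_num) (by norm_num) (by omega)
      linarith
    have h2 := expectedTime_le (⊤ : SimpleGraph (Fin 4)) 2 ε (4 * (k + 1)) (by omega) cyc
      (fun f hf v t u => profile_range (by norm_num) f hf v t u) h1 _ hf₀
    refine h2.trans_lt ?_
    exact ENNReal.mul_lt_top (ENNReal.natCast_lt_top _)
      (ENNReal.pow_lt_top (ENNReal.natCast_lt_top _))
  · intro g₀ hg₀
    have h1 := expectedTime_le (⊤ : SimpleGraph (Fin 4)) p₁ ε 4 (by omega) cyc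
      (fun f hf v t u => profile_range hp₁1 f hf v t u)
      (fun f hf => (osc_round_near_one hp₁1 f hf).trans heta) g₀ hg₀
    have h2 := expectedTime_two_ge N (ε := ε) (by
      rw [hε, pow_succ]
      have : (0:ℝ) < (1 / 3) ^ N := by positivity
      linarith)
    have h3 : (C : ℝ≥0∞) * expectedTime (⊤ : SimpleGraph (Fin 4)) p₁ g₀ ε
        ≤ ((C * 1024 : ℝ≥0) : ℝ≥0∞) := by
      push_cast
      refine mul_le_mul_right (h1.trans ?_) _
      norm_num
    have h4 : ((C * 1024 : ℝ≥0) : ℝ≥0∞) < (N : ℝ≥0∞) * (3 / 4) := by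
      have h5 : (N : ℝ≥0∞) * (3 / 4) = (((N : ℝ≥0) * (3 / 4) : ℝ≥0) : ℝ≥0∞) := by
        push_cast
        rfl
      rw [h5, ENNReal.coe_lt_coe, ← NNReal.coe_lt_coe]
      push_cast
      linarith
    exact h3.trans_lt (h4.trans_le h2)

end Pool.Agent.Results.MP_7677b2_pr.NoAbsoluteConstant
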